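import Pool.Agent.Helper43.GD.St

set_option autoImplicit false

namespace Pool.Agent.Helper89.GD

open Pool.Agent.Helper43.GD

theorem hTX (hP2 : StP2) (hCMB : StCMB) (hGNS : StGNS) : StTX := by
  intro L A _ _ Q M x hR hx u hu
  obtain ⟨g1, g2, _, _, _⟩ := hGNS L M x hR
  have hgold := hR.gold
  have e1 : 1 - (x : L) = (x : L) * (x : L) := by linear_combination -hgold
  have e2 : 1 - ((x ^ 2 : Lˣ) : L) = (x : L) := by
    rw [Units.val_pow_eq_pow_val]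
    linear_combination -hgold
  rcases hu with hu | hu
  · have h1 : Q.S (x⁻¹ * x⁻¹ * u⁻¹) x := by
      refine (hP2 L A Q u x _ hx ?_).1 hu
      rw [e1]
      have : ((x⁻¹ * x⁻¹ * u⁻¹ : Lˣ) : L) * ((x : L) * (x : L) * (u : L)) =
          ((x⁻¹ * x⁻¹ * u⁻¹ * (x * x * u) : Lˣ) : L) := by push_cast; rfl
      rw [this]
      have h3 : (x⁻¹ * x⁻¹ * u⁻¹ * (x * x * u) : Lˣ) = 1 := by
        rw [← mul_inv, ← mul_inv, inv_mul_cancel]
      rw [h3, Units.val_one]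
    have h2 : Q.S u⁻¹ x :=
      (Q.S_smul_iff (Q.U.mul_mem (Q.U.inv_mem hx) (Q.U.inv_mem hx))).1 h1
    refine hCMB L A Q u x x hu h2 ?_ g1
    rw [e1]
    exact ((x.isUnit.mul x.isUnit).mul (x.isUnit.mul x.isUnit))
  · have hx2 : x ^ 2 ∈ Q.U := Q.U.pow_mem hx 2
    have h1 : Q.S (x⁻¹ * u⁻¹) (x ^ 2) := by
      refine (hP2 L A Q u (x ^ 2) _ hx2 ?_).1 hu
      rw [e2]
      have : ((x⁻¹ * u⁻¹ : Lˣ) : L) * ((x : L) * (u : L)) =
          ((x⁻¹ * u⁻¹ * (x * u) : Lˣ) : L) := by push_cast; rfl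
      rw [this]
      have h3 : (x⁻¹ * u⁻¹ * (x * u) : Lˣ) = 1 := by
        rw [← mul_inv, inv_mul_cancel]
      rw [h3, Units.val_one]
    have h2 : Q.S u⁻¹ (x ^ 2) := (Q.S_smul_iff (Q.U.inv_mem hx)).1 h1
    refine hCMB L A Q u (x ^ 2) (x ^ 2) hu h2 ?_ g2
    rw [e2]
    exact x.isUnit.mul x.isUnit

end Pool.Agent.Helper89.GD
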